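import Pool.Agent.H8.UG.Targets

/-!
# MP_404602_al: separable base change (GBC)
-/

open CategoryTheory TensorProduct

namespace Pool.Agent.H74.UG

open Pool.Agent.H8.UG Pool.Agent.H8.UB Pool.Agent.H56.UDs

/-- finite base change preserves the noetherian property -/
theorem noeth (k K : Type) [Field k] [Field K] [Algebra k K] [FiniteDimensional k K] (S : Type)
    [Ring S] [Algebra k S] [IsNoetherianRing S] : IsNoetherianRing (K ⊗[k] S) := by
  let ι : S →ₐ[k] K ⊗[k] S := Algebra.TensorProduct.includeRight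
  let : Module S (K ⊗[k] S) := Module.compHom _ ι.toRingHom
  have hsm : ∀ (s : S) (x : K ⊗[k] S), s • x = ι s * x := fun _ _ => rfl
  have : IsScalarTower S (K ⊗[k] S) (K ⊗[k] S) := ⟨fun s x y => by
    rw [hsm, hsm, smul_eq_mul, smul_eq_mul, mul_assoc]⟩
  let b := Module.finBasis k K
  let g : (Fin (Module.finrank k K) → S) →ₗ[S] (K ⊗[k] S) :=
    { toFun := fun v => ∑ i, b i ⊗ₜ[k] v i
      map_add' := fun v w => by
        simp only [Pi.add_apply, TensorProduct.tmul_add, Finset.sum_add_distrib]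
      map_smul' := fun s v => by
        rw [RingHom.id_apply, hsm, Finset.mul_sum]
        refine Finset.sum_congr rfl fun i _ => ?_
        show _ = Algebra.TensorProduct.includeRight s * b i ⊗ₜ[k] v i
        rw [Algebra.TensorProduct.includeRight_apply, Algebra.TensorProduct.tmul_mul_tmul,
          one_mul]
        rfl }
  have hg : Function.Surjective g := by
    intro z
    induction z using TensorProduct.induction_on with
    | zero => exact ⟨0, map_zero g⟩
    | add x y hx hy =>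
      obtain ⟨v, hv⟩ := hx
      obtain ⟨w, hw⟩ := hy
      exact ⟨v + w, by rw [map_add, hv, hw]⟩
    | tmul x s =>
      refine ⟨fun i => b.repr x i • s, ?_⟩
      show ∑ i, b i ⊗ₜ[k] (b.repr x i • s) = x ⊗ₜ[k] s
      have h : x = ∑ i, b.repr x i • b i := (b.sum_repr x).symm
      conv_rhs => rw [h, TensorProduct.sum_tmul]
      refine Finset.sum_congr rfl fun i _ => ?_
      rw [TensorProduct.tmul_smul, TensorProduct.smul_tmul']
  have : Module.Finite S (K ⊗[k] S) := Module.Finite.of_surjective g hg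
  exact IsNoetherianRing.of_finite S (K ⊗[k] S)

/-- base change in two steps -/
theorem tower (k K N : Type) [Field k] [Field K] [Field N] [Algebra k K] [Algebra k N]
    [Algebra K N] [IsScalarTower k K N] (S : Type) [Ring S] [Algebra k S] :
    Nonempty ((N ⊗[K] (K ⊗[k] S)) ≃+* (N ⊗[k] S)) := by
  let f : N →ₐ[K] N ⊗[k] S := Algebra.TensorProduct.includeLeft
  let g : K ⊗[k] S →ₐ[K] N ⊗[k] S :=
    Algebra.TensorProduct.map (Algebra.ofId K N) (AlgHom.id k S)
  have hcomm : ∀ x y, Commute (f x) (g y) := by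
    intro x y
    induction y using TensorProduct.induction_on with
    | zero => rw [map_zero]; exact Commute.zero_right _
    | add a b ha hb => rw [map_add]; exact ha.add_right hb
    | tmul a s =>
      show f x * g (a ⊗ₜ[k] s) = g (a ⊗ₜ[k] s) * f x
      show (x ⊗ₜ[k] (1 : S)) * ((algebraMap K N a) ⊗ₜ[k] s) =
        ((algebraMap K N a) ⊗ₜ[k] s) * (x ⊗ₜ[k] (1 : S))
      rw [Algebra.TensorProduct.tmul_mul_tmul, Algebra.TensorProduct.tmul_mul_tmul, one_mul,
        mul_one, mul_comm]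
  let φ : N ⊗[K] (K ⊗[k] S) →ₐ[K] N ⊗[k] S := Algebra.TensorProduct.lift f g hcomm
  let ψ : N ⊗[K] (K ⊗[k] S) ≃ₗ[K] N ⊗[k] S :=
    TensorProduct.AlgebraTensorModule.cancelBaseChange k K K N S
  have h : ∀ z, φ z = ψ z := by
    intro z
    induction z using TensorProduct.induction_on with
    | zero => rw [map_zero, map_zero]
    | add a b ha hb => rw [map_add, map_add, ha, hb]
    | tmul n y =>
      induction y using TensorProduct.induction_on with
      | zero => rw [TensorProduct.tmul_zero, map_zero, map_zero]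
      | add a b ha hb => rw [TensorProduct.tmul_add, map_add, map_add, ha, hb]
      | tmul a s =>
        show f n * g (a ⊗ₜ[k] s) = (a • n) ⊗ₜ[k] s
        show (n ⊗ₜ[k] (1 : S)) * ((algebraMap K N a) ⊗ₜ[k] s) = (a • n) ⊗ₜ[k] s
        rw [Algebra.TensorProduct.tmul_mul_tmul, one_mul, Algebra.smul_def, mul_comm]
  have hφ : Function.Bijective φ := by
    have : (φ : N ⊗[K] (K ⊗[k] S) → N ⊗[k] S) = ψ := funext h
    rw [this]
    exact ψ.bijective
  exact ⟨RingEquiv.ofBijective φ.toRingHom hφ⟩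

/-- the opposite of the base change -/
theorem opp (k K : Type) [Field k] [Field K] [Algebra k K] (R : Type) [Ring R] [Algebra k R] :
    Nonempty ((K ⊗[k] R)ᵐᵒᵖ ≃+* (K ⊗[k] Rᵐᵒᵖ)) := by
  let e₁ : Kᵐᵒᵖ ⊗[k] Rᵐᵒᵖ ≃ₐ[k] (K ⊗[k] R)ᵐᵒᵖ := Algebra.TensorProduct.opAlgEquiv k k K R
  let e₂ : K ⊗[k] Rᵐᵒᵖ ≃ₐ[k] Kᵐᵒᵖ ⊗[k] Rᵐᵒᵖ :=
    Algebra.TensorProduct.congr (AlgEquiv.toOpposite k K) AlgEquiv.refl
  exact ⟨(e₂.trans e₁).symm.toRingEquiv⟩

/-- upper bound -/
theorem stepA (hGEN : G_GEN) (hMOR : G_MOR) (hGD2 : G_GD2) (k K : Type) [Field k] [Field K]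
    [Algebra k K] [FiniteDimensional k K] [Algebra.IsSeparable k K] (S : Type) [Ring S]
    [Algebra k S] [IsNoetherianRing S] (r : Ordinal.{0}) (hr : UDl S = r) :
    ∃ r₂ : Ordinal.{0}, UDl (K ⊗[k] S) = r₂ ∧
      r₂ + 1 ≤ (Module.finrank k K : Ordinal.{0}) * (r + 1) := by
  obtain ⟨g, σ, h⟩ := hGD2 k K S
  have hd : 0 < Module.finrank k K := Module.finrank_pos
  have := noeth k K S
  exact hGEN (K ⊗[k] S) (Matrix (Fin (Module.finrank k K)) (Fin (Module.finrank k K)) S) g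
    (Module.finrank k K) σ h hd r (by rw [hMOR S _ hd, hr])

/-- lower bound, Galois case -/
theorem stepB (hGEN : G_GEN) (hGD1 : G_GD1) (k K : Type) [Field k] [Field K]
    [Algebra k K] [FiniteDimensional k K] [IsGalois k K] (S : Type) [Ring S]
    [Algebra k S] [IsNoetherianRing S] (r₂ : Ordinal.{0}) (hr : UDl (K ⊗[k] S) = r₂) :
    ∃ r : Ordinal.{0}, UDl S = r ∧
      r + 1 ≤ (Module.finrank k K : Ordinal.{0}) * (r₂ + 1) := by
  obtain ⟨σ, h⟩ := hGD1 k K S
  have := noeth k K S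
  exact hGEN S (K ⊗[k] S) _ (Module.finrank k K) σ h Module.finrank_pos r₂ hr

/-- lower bound, general case -/
theorem stepC (hGEN : G_GEN) (hMOR : G_MOR) (hGD1 : G_GD1) (hGD2 : G_GD2) (hRIG : T_RIG)
    (k K : Type) [Field k] [Field K]
    [Algebra k K] [FiniteDimensional k K] [Algebra.IsSeparable k K] :
    ∃ c : ℕ, ∀ (S : Type) [Ring S] [Algebra k S] [IsNoetherianRing S] (r₂ : Ordinal.{0}),
      UDl (K ⊗[k] S) = r₂ → ∃ r : Ordinal.{0}, UDl S = r ∧
        r + 1 ≤ (c : Ordinal.{0}) * (r₂ + 1) := by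
  have : Algebra.IsAlgebraic k (AlgebraicClosure K) :=
    Algebra.IsAlgebraic.trans k K (AlgebraicClosure K)
  have : IsAlgClosure k (AlgebraicClosure K) := ⟨inferInstance, inferInstance⟩
  let N := IntermediateField.normalClosure k K (AlgebraicClosure K)
  have hsep : Algebra.IsSeparable k N := by
    rw [← le_separableClosure_iff]
    refine normalClosure_le_iff.2 fun f => ?_
    rintro x ⟨y, rfl⟩
    rw [mem_separableClosure_iff]
    have h1 : IsSeparable k y := Algebra.IsSeparable.isSeparable k y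
    unfold IsSeparable at h1 ⊢
    have h2 := minpoly.algHom_eq f f.injective y
    rw [← h2] at h1
    exact h1
  have hgal : IsGalois k N := ⟨⟩
  have hfin : FiniteDimensional k N := inferInstance
  have hfin2 : FiniteDimensional K N := Module.Finite.of_restrictScalars_finite k K N
  have hsep2 : Algebra.IsSeparable K N := Algebra.isSeparable_tower_top_of_isSeparable k K N
  refine ⟨Module.finrank k N * Module.finrank K N, fun S _ _ _ r₂ hr₂ => ?_⟩
  have := noeth k K S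
  obtain ⟨r₃, h3, h3'⟩ := stepA hGEN hMOR hGD2 K N (K ⊗[k] S) r₂ hr₂
  obtain ⟨e⟩ := tower k K N S
  rw [hRIG _ _ e] at h3
  obtain ⟨r, h4, h4'⟩ := stepB hGEN hGD1 k N S r₃ h3
  refine ⟨r, h4, h4'.trans ?_⟩
  have h5 : (Module.finrank k N : Ordinal.{0}) * (r₃ + 1) ≤
      (Module.finrank k N : Ordinal.{0}) * ((Module.finrank K N : Ordinal.{0}) * (r₂ + 1)) :=
    mul_le_mul_right h3' _
  refine h5.trans (le_of_eq ?_)
  rw [← mul_assoc, Ordinal.natCast_mul]

theorem pf_GBC (hGEN : G_GEN) (hMOR : G_MOR) (hGD1 : G_GD1) (hGD2 : G_GD2) (hRIG : T_RIG) :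
    G_GBC := by
  intro k K _ _ _ _ _
  obtain ⟨c, hc1, hc2⟩ : ∃ c : ℕ, (IsGalois k K → c = Module.finrank k K) ∧
      ∀ (S : Type) [Ring S] [Algebra k S] [IsNoetherianRing S] (r₂ : Ordinal.{0}),
      UDl (K ⊗[k] S) = r₂ → ∃ r : Ordinal.{0}, UDl S = r ∧
        r + 1 ≤ (c : Ordinal.{0}) * (r₂ + 1) := by
    by_cases hg : IsGalois k K
    · exact ⟨Module.finrank k K, fun _ => rfl, fun S _ _ _ r₂ h => stepB hGEN hGD1 k K S r₂ h⟩
    · obtain ⟨c, hc⟩ := stepC hGEN hMOR hGD1 hGD2 hRIG k K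
      exact ⟨c, fun h => absurd h hg, hc⟩
  refine ⟨c, hc1, fun R _ _ _ => ?_⟩
  have e1 : UD R = UDl Rᵐᵒᵖ := rfl
  have e2 : UD (K ⊗[k] R) = UDl (K ⊗[k] Rᵐᵒᵖ) := by
    obtain ⟨e⟩ := opp k K R
    exact hRIG _ _ e
  rw [e1, e2]
  have hA := fun r hr => stepA hGEN hMOR hGD2 k K Rᵐᵒᵖ r hr
  have hB := fun r hr => hc2 Rᵐᵒᵖ r hr
  refine ⟨?_, fun ρ ρ' h1 h2 => ?_⟩
  · constructor
    · intro h
      by_contra hne
      obtain ⟨r, hr⟩ := WithTop.ne_top_iff_exists.1 hne
      obtain ⟨r₂, h2, -⟩ := hA r hr.symm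
      rw [h] at h2
      exact WithTop.coe_ne_top h2.symm
    · intro h
      by_contra hne
      obtain ⟨r, hr⟩ := WithTop.ne_top_iff_exists.1 hne
      obtain ⟨r₂, h2, -⟩ := hB r hr.symm
      rw [h] at h2
      exact WithTop.coe_ne_top h2.symm
  · obtain ⟨r₂, h3, h3'⟩ := hA ρ h1
    obtain ⟨r, h4, h4'⟩ := hB ρ' h2
    rw [h2] at h3
    rw [h1] at h4
    have h5 : ρ' = r₂ := WithTop.coe_injective h3
    have h6 : ρ = r := WithTop.coe_injective h4
    rw [h5] at h4' ⊢
    rw [h6] at h3' ⊢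
    exact ⟨h3', h4'⟩

end Pool.Agent.H74.UG
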